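import Pool.Agent.V11106.Brg3

set_option autoImplicit false

/-!
# The Bridge Theorem for actions of cancellative left amenable monoids

Definitions used in the statement (from `Pool/Agent/V11106/Brg3.lean`):

* `Brg.coverJoin γ 𝒰 F` is the join `⋁_{s ∈ F} γ(s)⁻¹(𝒰)`;
* `Brg.minCard 𝒱` is the least size of a finite subfamily of `𝒱` covering `K`;
* `Brg.IsFiniteOpenCover 𝒰` says that `𝒰` is a finite open cover of `K`;
* `Brg.traj γ X F` is the trajectory `T_F(X) = ∑_{s ∈ F} X·s` in the Pontryagin dual of `K`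
  (which is written multiplicatively), where `χ·s = χ ∘ γ(s)`.
-/

namespace Pool.Agent.Results.MP_699bc8_an.BridgeTheorem

open Filter Topology
open Pool.Agent.V11106.Brg

universe u v w

/-- A left action of the monoid `S` on `K` by continuous endomorphisms. -/
structure IsAction {S : Type u} [Monoid S] {K : Type v} [CommGroup K] [TopologicalSpace K]
    (γ : S → (K →ₜ* K)) : Prop where
  one : γ 1 = ContinuousMonoidHom.id K
  mul : ∀ s t, γ (s * t) = (γ s).comp (γ t)

/-- Left Følner nets of `S`: nets of non-empty finite subsets with `|sF_i \ F_i| / |F_i| → 0`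
for every `s`. -/
structure IsLeftFolnerNet {S : Type u} [Monoid S] {I : Type w} [Preorder I]
    (F : I → Finset S) : Prop where
  nonempty : ∀ i, (F i).Nonempty
  tendsto : ∀ s : S, Tendsto (fun i =>
    ((((fun t => s * t) '' (F i : Set S)) \ (F i : Set S)).ncard : ℝ) / ((F i).card : ℝ))
    atTop (𝓝 0)

section

variable {S : Type u} {K : Type v} [CommGroup K] [TopologicalSpace K] [IsTopologicalGroup K]

/-- `log N(𝒰_F) / |F|`. -/
noncomputable def topAvg (γ : S → (K →ₜ* K)) (𝒰 : Set (Set K)) (F : Finset S) : ℝ :=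
  Real.log (minCard (coverJoin γ 𝒰 F)) / F.card

/-- `log |T_F(X)| / |F|`. -/
noncomputable def algAvg (γ : S → (K →ₜ* K)) (X : Finset (PontryaginDual K)) (F : Finset S) : ℝ :=
  Real.log ((traj γ X F).ncard) / F.card

variable {I : Type w} [Preorder I]

/-- The topological entropy of `γ` along the net `F`, as a supremum over finite open covers of
upper limits. -/
noncomputable def htop (γ : S → (K →ₜ* K)) (F : I → Finset S) : EReal :=
  ⨆ 𝒰 : {𝒰 : Set (Set K) // IsFiniteOpenCover 𝒰},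
    limsup (fun i => ((topAvg γ 𝒰.1 (F i) : ℝ) : EReal)) atTop

/-- The algebraic entropy of the dual action along the net `F`, as a supremum over non-empty
finite sets of characters of upper limits. -/
noncomputable def halg (γ : S → (K →ₜ* K)) (F : I → Finset S) : EReal :=
  ⨆ X : {X : Finset (PontryaginDual K) // X.Nonempty},
    limsup (fun i => ((algAvg γ X.1 (F i) : ℝ) : EReal)) atTop

/-- The same as `htop`, with lower limits. -/
noncomputable def htopInf (γ : S → (K →ₜ* K)) (F : I → Finset S) : EReal :=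
  ⨆ 𝒰 : {𝒰 : Set (Set K) // IsFiniteOpenCover 𝒰},
    liminf (fun i => ((topAvg γ 𝒰.1 (F i) : ℝ) : EReal)) atTop

/-- The same as `halg`, with lower limits. -/
noncomputable def halgInf (γ : S → (K →ₜ* K)) (F : I → Finset S) : EReal :=
  ⨆ X : {X : Finset (PontryaginDual K) // X.Nonempty},
    liminf (fun i => ((algAvg γ X.1 (F i) : ℝ) : EReal)) atTop

end

theorem ereal_le {a b : EReal} (h : ∀ ε : ℝ, 0 < ε → a ≤ (ε : EReal) + b) : a ≤ b := by
  by_contra hcon
  push Not at hcon
  obtain ⟨r, hbr, hra⟩ := EReal.lt_iff_exists_real_btwn.1 hcon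
  induction b with
  | bot =>
    have := h 1 one_pos
    rw [EReal.add_bot] at this
    exact absurd (lt_of_lt_of_le hcon this) (lt_irrefl _)
  | top => exact absurd hbr (not_lt.2 le_top)
  | coe b =>
    have hbr' : b < r := by exact_mod_cast hbr
    have h1 := h (r - b) (by linarith)
    rw [← EReal.coe_add, sub_add_cancel] at h1
    exact absurd (lt_of_lt_of_le hra h1) (lt_irrefl _)

theorem sup_le_sup {ι κ I : Type*} [Preorder I] [IsDirected I (· ≤ ·)] [Nonempty I]
    (a : ι → I → ℝ) (b : κ → I → ℝ)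
    (h : ∀ j, ∀ ε : ℝ, 0 < ε → ∃ k, ∀ i, a j i ≤ ε + b k i) :
    (⨆ j, limsup (fun i => ((a j i : ℝ) : EReal)) atTop)
      ≤ (⨆ k, limsup (fun i => ((b k i : ℝ) : EReal)) atTop) ∧
    (⨆ j, liminf (fun i => ((a j i : ℝ) : EReal)) atTop)
      ≤ (⨆ k, liminf (fun i => ((b k i : ℝ) : EReal)) atTop) := by
  have hc : ∀ ε : ℝ, limsup (fun _ : I => ((ε : ℝ) : EReal)) atTop = (ε : EReal) := fun ε =>
    limsup_const _
  constructor
  · refine iSup_le fun j => ereal_le fun ε hε => ?_
    obtain ⟨k, hk⟩ := h j ε hε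
    calc limsup (fun i => ((a j i : ℝ) : EReal)) atTop
        ≤ limsup ((fun _ : I => ((ε : ℝ) : EReal)) + fun i => ((b k i : ℝ) : EReal)) atTop := by
          refine limsup_le_limsup (Eventually.of_forall fun i => ?_)
          change ((a j i : ℝ) : EReal) ≤ ((ε : ℝ) : EReal) + ((b k i : ℝ) : EReal)
          rw [← EReal.coe_add]
          exact_mod_cast hk i
      _ ≤ limsup (fun _ : I => ((ε : ℝ) : EReal)) atTop +
          limsup (fun i => ((b k i : ℝ) : EReal)) atTop := by
          apply EReal.limsup_add_le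
          · left; rw [hc]; exact EReal.coe_ne_bot _
          · left; rw [hc]; exact EReal.coe_ne_top _
      _ ≤ _ := by
          rw [hc]
          exact add_le_add le_rfl (le_iSup (fun k => limsup (fun i => ((b k i : ℝ) : EReal)) atTop) k)
  · refine iSup_le fun j => ereal_le fun ε hε => ?_
    obtain ⟨k, hk⟩ := h j ε hε
    calc liminf (fun i => ((a j i : ℝ) : EReal)) atTop
        ≤ liminf ((fun _ : I => ((ε : ℝ) : EReal)) + fun i => ((b k i : ℝ) : EReal)) atTop := by
          refine liminf_le_liminf (Eventually.of_forall fun i => ?_)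
          change ((a j i : ℝ) : EReal) ≤ ((ε : ℝ) : EReal) + ((b k i : ℝ) : EReal)
          rw [← EReal.coe_add]
          exact_mod_cast hk i
      _ ≤ limsup (fun _ : I => ((ε : ℝ) : EReal)) atTop +
          liminf (fun i => ((b k i : ℝ) : EReal)) atTop := by
          apply EReal.liminf_add_le
          · left; rw [hc]; exact EReal.coe_ne_bot _
          · left; rw [hc]; exact EReal.coe_ne_top _
      _ ≤ _ := by
          rw [hc]
          exact add_le_add le_rfl (le_iSup (fun k => liminf (fun i => ((b k i : ℝ) : EReal)) atTop) k)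

theorem log_ineq {n m : ℕ} {k : ℕ} (hk : 0 < k) (hn : 1 ≤ n) (hm : 1 ≤ m) {δ ε : ℝ} (hδ : 0 < δ)
    (hε : Real.log (1 + δ) ≤ ε) (h : (n : ℝ) ≤ (1 + δ) ^ k * m) :
    Real.log n / k ≤ ε + Real.log m / k := by
  have hk' : (0 : ℝ) < k := by exact_mod_cast hk
  have hn' : (0 : ℝ) < n := by exact_mod_cast hn
  have hm' : (0 : ℝ) < m := by exact_mod_cast hm
  have h1 := Real.log_le_log hn' h
  rw [Real.log_mul (by positivity) hm'.ne', Real.log_pow] at h1
  rw [← sub_le_iff_le_add, ← sub_div, div_le_iff₀ hk']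
  nlinarith

/-- **Bridge Theorem.**  Let `S` be a cancellative monoid, `γ` a left action of `S` on a compact
(Hausdorff) abelian group `K` by continuous endomorphisms, and `(F_i)` a left Følner net of `S`.

1. If `hT 𝒰` is the limit of `log N(𝒰_{F_i})/|F_i|` for every finite open cover `𝒰`, and `hA X` the
   limit of `log |T_{F_i}(X)|/|F_i|` for every non-empty finite set `X` of characters, then
   `sup_𝒰 hT 𝒰 = sup_X hA X`, that is `h_top(γ) = h_alg(γ̂)`.
2. The same holds, without using the existence of the limits, with upper limits,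
3. and with lower limits.
4. The inequalities for a single finite set `F` behind this: every finite open cover `𝒰` and
   `ε > 0` have a non-empty finite `X` with `N(𝒰_F) ≤ (1+ε)^|F| |T_F(X)|` for every finite `F ⊆ S`,
5. and every finite `X` and `ε > 0` have a finite open cover `𝒰` with
   `|T_F(X)| ≤ (1+ε)^|F| N(𝒰_F)` for every finite `F ⊆ S`. -/
theorem result (S : Type u) [Monoid S] [IsCancelMul S] (K : Type v) [CommGroup K]
    [TopologicalSpace K] [IsTopologicalGroup K] [CompactSpace K] [T2Space K]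
    (γ : S → (K →ₜ* K)) (_hγ : IsAction γ)
    (I : Type w) [Preorder I] [IsDirected I (· ≤ ·)] [Nonempty I]
    (F : I → Finset S) (hF : IsLeftFolnerNet F) :
    (∀ (hT : Set (Set K) → ℝ) (hA : Finset (PontryaginDual K) → ℝ),
      (∀ 𝒰, IsFiniteOpenCover 𝒰 → Tendsto (fun i => topAvg γ 𝒰 (F i)) atTop (𝓝 (hT 𝒰))) →
      (∀ X, X.Nonempty → Tendsto (fun i => algAvg γ X (F i)) atTop (𝓝 (hA X))) →
      (⨆ 𝒰 : {𝒰 : Set (Set K) // IsFiniteOpenCover 𝒰}, ((hT 𝒰.1 : ℝ) : EReal))
        = ⨆ X : {X : Finset (PontryaginDual K) // X.Nonempty}, ((hA X.1 : ℝ) : EReal)) ∧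
    htop γ F = halg γ F ∧
    htopInf γ F = halgInf γ F ∧
    (∀ 𝒰 : Set (Set K), IsFiniteOpenCover 𝒰 → ∀ ε : ℝ, 0 < ε →
      ∃ X : Finset (PontryaginDual K), X.Nonempty ∧ ∀ E : Finset S,
        (minCard (coverJoin γ 𝒰 E) : ℝ) ≤ (1 + ε) ^ E.card * (traj γ X E).ncard) ∧
    (∀ X : Finset (PontryaginDual K), ∀ ε : ℝ, 0 < ε →
      ∃ 𝒰 : Set (Set K), IsFiniteOpenCover 𝒰 ∧ ∀ E : Finset S,
        ((traj γ X E).ncard : ℝ) ≤ (1 + ε) ^ E.card * minCard (coverJoin γ 𝒰 E)) := by
  have hδ : ∀ ε : ℝ, 0 < ε → Real.log (1 + ε) ≤ ε := fun ε hε => by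
    have := Real.log_le_sub_one_of_pos (show 0 < 1 + ε by linarith)
    linarith
  have h1 := sup_le_sup (I := I)
    (fun 𝒰 : {𝒰 : Set (Set K) // IsFiniteOpenCover 𝒰} => fun i => topAvg γ 𝒰.1 (F i))
    (fun X : {X : Finset (PontryaginDual K) // X.Nonempty} => fun i => algAvg γ X.1 (F i)) (by
      rintro ⟨𝒰, h𝒰⟩ ε hε
      obtain ⟨X, hX, hX'⟩ := ineq_one γ h𝒰 hε
      refine ⟨⟨X, hX⟩, fun i => ?_⟩
      exact log_ineq (Finset.card_pos.2 (hF.nonempty i)) (minCard_pos γ h𝒰 _) (traj_pos γ hX _) hε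
        (hδ ε hε) (hX' (F i)))
  have h2 := sup_le_sup (I := I)
    (fun X : {X : Finset (PontryaginDual K) // X.Nonempty} => fun i => algAvg γ X.1 (F i))
    (fun 𝒰 : {𝒰 : Set (Set K) // IsFiniteOpenCover 𝒰} => fun i => topAvg γ 𝒰.1 (F i)) (by
      rintro ⟨X, hX⟩ ε hε
      obtain ⟨𝒰, h𝒰, h𝒰'⟩ := ineq_two γ X hε
      refine ⟨⟨𝒰, h𝒰⟩, fun i => ?_⟩
      exact log_ineq (Finset.card_pos.2 (hF.nonempty i)) (traj_pos γ hX _) (minCard_pos γ h𝒰 _) hε
        (hδ ε hε) (h𝒰' (F i)))
  have h3 : htop γ F = halg γ F := le_antisymm h1.1 h2.1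
  refine ⟨?_, h3, le_antisymm h1.2 h2.2, fun 𝒰 h𝒰 ε hε => ineq_one γ h𝒰 hε,
    fun X ε hε => ineq_two γ X hε⟩
  intro hT hA hlT hlA
  have e1 : (⨆ 𝒰 : {𝒰 : Set (Set K) // IsFiniteOpenCover 𝒰}, ((hT 𝒰.1 : ℝ) : EReal))
      = htop γ F := by
    rw [htop]
    refine iSup_congr fun 𝒰 => ?_
    exact (((continuous_coe_real_ereal.tendsto _).comp (hlT 𝒰.1 𝒰.2)).limsup_eq).symm
  have e2 : (⨆ X : {X : Finset (PontryaginDual K) // X.Nonempty}, ((hA X.1 : ℝ) : EReal))
      = halg γ F := by
    rw [halg]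
    refine iSup_congr fun X => ?_
    exact (((continuous_coe_real_ereal.tendsto _).comp (hlA X.1 X.2)).limsup_eq).symm
  rw [e1, e2, h3]

end Pool.Agent.Results.MP_699bc8_an.BridgeTheorem
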